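import Pool.Agent.W477.GM.Stms

set_option maxHeartbeats 1000000

namespace Pool.Agent.W477.GM.W89K

open Pool.Agent.W477.GM

section
variable {C : Type} {L : C → ℕ∞} [PartialOrder C] [OrderTop C]

theorem fl_len (z : J → Ordinal.{0} → Bool) (p : Cn C L) (j : J) : (fl z p).len j = p.len j := rfl

theorem fl_c (z : J → Ordinal.{0} → Bool) (p : Cn C L) : (fl z p).c = p.c := rfl

theorem fl_bit (z : J → Ordinal.{0} → Bool) (p : Cn C L) (j : J) (o : Ordinal.{0})
    (ho : o < p.len j) : (fl z p).bit j o = xor (p.bit j o) (z j o) := if_pos ho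

theorem fl_fl (z : J → Ordinal.{0} → Bool) (p : Cn C L) : fl z (fl z p) = p := by
  refine Cn.ext' rfl (fun _ => rfl) fun j o ho => ?_
  have ho' : o < p.len j := ho
  rw [fl_bit z (fl z p) j o ho', fl_bit z p j o ho']
  cases p.bit j o <;> cases z j o <;> rfl

theorem fl_mono (z : J → Ordinal.{0} → Bool) {p q : Cn C L} (h : p ≤ q) : fl z p ≤ fl z q := by
  rw [Cn.le_def] at h ⊢
  refine ⟨h.1, fun j => ⟨(h.2 j).1, fun o ho => ?_⟩⟩
  have ho' : o < q.len j := ho
  rw [fl_bit z p j o (lt_of_lt_of_le ho' (h.2 j).1), fl_bit z q j o ho', (h.2 j).2 o ho']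

/-- the flip as an automorphism -/
noncomputable def flO (z : J → Ordinal.{0} → Bool) : Cn C L ≃o Cn C L where
  toFun := fl z
  invFun := fl z
  left_inv := fl_fl z
  right_inv := fl_fl z
  map_rel_iff' := by
    intro p q
    constructor
    · intro h
      have := fl_mono z h
      change fl z (fl z p) ≤ fl z (fl z q) at this
      rwa [fl_fl, fl_fl] at this
    · exact fun h => fl_mono z h

theorem flO_apply (z : J → Ordinal.{0} → Bool) (p : Cn C L) : flO z p = fl z p := rfl

theorem flO_inv_apply (z : J → Ordinal.{0} → Bool) (p : Cn C L) :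
    (flO z : Cn C L ≃o Cn C L)⁻¹ p = fl z p := rfl

/-- the common extension of `p` and `w` -/
noncomputable def ce (p w : Cn C L) (hL : ∀ c d, c ≤ d → L d ≤ L c) (hc : w.c ≤ p.c) :
    Cn C L := by
  classical exact
  { c := w.c
    len := fun j => max (p.len j) (w.len j)
    bit := fun j o => if o < p.len j then p.bit j o else w.bit j o
    fin := (p.fin.union w.fin).subset fun j hj => by
      by_cases h : p.len j = 0
      · right
        intro h'
        apply hj
        rw [h, h']; simp
      · left; exact h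
    lt := fun j => max_lt (p.lt j) (w.lt j)
    off := fun j o ho => by
      have h1 : p.len j ≤ o := (le_max_left _ _).trans ho
      have h2 : w.len j ≤ o := (le_max_right _ _).trans ho
      rw [if_neg (not_lt.2 h1)]
      exact w.off j o h2
    sup := fun j hj => by
      by_cases h : p.len j = 0
      · refine w.sup j fun h' => hj ?_
        rw [h, h']; simp
      · exact lt_of_lt_of_le (p.sup j h) (hL _ _ hc) }

end

theorem homk_holds (h : P_EQ) (h1 : P_ACT) (h2 : P_FC) (h3 : P_HS) (hk : P_KAP) (hs : P_SYSC) :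
    P_HOMK := by
  classical
  intro C _ _ L hC K φ v p hv hp
  have hS : SysAx (sysC C L) := hs hk C L hC
  have F := h2 (Cn C L) (HS (sysC C L))
  have H := h3 (Cn C L) (sysC C L) hS
  refine F.dense φ v _ fun q hq => ?_
  rw [Cn.le_def] at hq
  obtain ⟨hqc, hqj⟩ := hq
  have hqc' : q.c ≤ p.c := hqc
  have hK : ∀ j, K j → p.len j ≤ q.len j ∧ ∀ o, o < p.len j → q.bit j o = p.bit j o := by
    intro j hj
    have e1 : (rs K p).len j = p.len j := if_pos hj
    have e2 : ∀ o, (rs K p).bit j o = p.bit j o := fun o => if_pos hj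
    have := hqj j
    rw [e1] at this
    exact ⟨this.1, fun o ho => by rw [this.2 o ho, e2]⟩
  set z : J → Ordinal.{0} → Bool := fun j o =>
    decide (¬ K j ∧ o < p.len j ∧ o < q.len j ∧ p.bit j o ≠ q.bit j o) with hz
  have hzF : FinS z := by
    refine p.fin.subset ?_
    rintro j ⟨o, ho⟩
    have := (of_decide_eq_true ho).2.1
    intro h0
    rw [h0] at this
    exact absurd this (not_lt.2 zero_le)
  have hzK : ∀ j, K j → ∀ o, z j o = false := by
    intro j hj o
    exact decide_eq_false fun h => h.1 hj
  set g : Cn C L ≃o Cn C L := flO z with hg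
  have hgG : g ∈ (sysC C L).G := ⟨z, hzF, fun _ => rfl⟩
  have hgG' : g⁻¹ ∈ (sysC C L).G := hS.inv g hgG
  -- the common extension
  set s : Cn C L := ce p (fl z q) hC.anti hqc' with hsdef
  have hsp : s ≤ p := by
    rw [Cn.le_def]
    refine ⟨hqc', fun j => ⟨le_max_left _ _, fun o ho => ?_⟩⟩
    change (if o < p.len j then p.bit j o else _) = p.bit j o
    exact if_pos ho
  have hsq : s ≤ g q := by
    rw [Cn.le_def]
    refine ⟨le_rfl, fun j => ⟨le_max_right _ _, fun o ho => ?_⟩⟩
    change (if o < p.len j then p.bit j o else (fl z q).bit j o) = (fl z q).bit j o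
    by_cases hop : o < p.len j
    · rw [if_pos hop]
      have ho' : o < q.len j := ho
      rw [fl_bit z q j o ho']
      by_cases hj : K j
      · rw [hzK j hj o, (hK j hj).2 o hop]; simp
      · by_cases hb : p.bit j o = q.bit j o
        · have : z j o = false := decide_eq_false fun h => h.2.2.2 hb
          rw [this, hb]; simp
        · have : z j o = true := decide_eq_true ⟨hj, hop, ho', hb⟩
          rw [this]
          revert hb
          cases p.bit j o <;> cases q.bit j o <;> simp
    · rw [if_neg hop]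
  have hgg : g (g q) = q := fl_fl z q
  refine ⟨g s, ?_, ?_⟩
  · have := g.monotone hsq
    rwa [hgg] at this
  · have e1 := F.mono φ v p s hsp hp
    have e2 := (F.equiv g (fun x hx => H.act g hgG x hx) (fun x hx => H.act g⁻¹ hgG' x hx) φ v s).2 e1
    exact F.congr φ _ v (g s) (fun i => hv i g ⟨z, hzF, hzK, fun _ => rfl⟩ (g s)) e2

end Pool.Agent.W477.GM.W89K
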